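import Pool.Agent.H18.KC.Stmts

/-!
# Project KC: WIN, symmetry in the positions of the Appell polynomial
-/

set_option autoImplicit false

open Finset

namespace Pool.Agent.H88.KC.WIN

open Pool.Agent.H18.KC

theorem pos_val (k i : ℕ) (h : i < k + 1) : (pos k i).val = i := by
  simp [pos, Fin.ofNat, Nat.mod_eq_of_lt h]

theorem pos_eq (k i : ℕ) (h : i < k + 1) : pos k i = ⟨i, h⟩ := Fin.ext (pos_val k i h)

theorem W_apply {ι E : Type} [Fintype ι] [NormedAddCommGroup E] [InnerProductSpace ℝ E] {t Q : ℝ}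
    (D : Dat ι E t Q) (h0 : E) (N m : ℕ) (hm : m ≤ N) (I : Fin N → ι) :
    D.W h0 N m I = D.P m (fun i => I (Fin.castLE hm i))
      (D.hs h0 (N - m) (fun j => I ⟨m + j, by omega⟩)) := by
  simp only [Dat.W, hm, dif_pos]

theorem swap_cast {k m i j : ℕ} (hm : m ≤ k + 1) (hi : i < m) (hj : j < m) (a : Fin m) :
    Equiv.swap (pos k i) (pos k j) (Fin.castLE hm a) =
      Fin.castLE hm (Equiv.swap ⟨i, hi⟩ ⟨j, hj⟩ a) := by
  have hi' : pos k i = Fin.castLE hm ⟨i, hi⟩ := by
    rw [pos_eq k i (by omega)]; rfl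
  have hj' : pos k j = Fin.castLE hm ⟨j, hj⟩ := by
    rw [pos_eq k j (by omega)]; rfl
  rw [hi', hj']
  by_cases h1 : a = ⟨i, hi⟩
  · subst h1; simp
  · by_cases h2 : a = ⟨j, hj⟩
    · subst h2; simp
    · rw [Equiv.swap_apply_of_ne_of_ne h1 h2, Equiv.swap_apply_of_ne_of_ne]
      · intro h; exact h1 (Fin.castLE_injective hm h)
      · intro h; exact h2 (Fin.castLE_injective hm h)

theorem swap_tail {k m i j : ℕ} (hi : i < m) (hj : j < m) (hm : m ≤ k + 1)
    (a : ℕ) (ha : m + a < k + 1) :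
    Equiv.swap (pos k i) (pos k j) (⟨m + a, ha⟩ : Fin (k + 1)) = ⟨m + a, ha⟩ := by
  apply Equiv.swap_apply_of_ne_of_ne
  · rw [pos_eq k i (by omega)]
    intro h
    have := congrArg Fin.val h
    simp at this; omega
  · rw [pos_eq k j (by omega)]
    intro h
    have := congrArg Fin.val h
    simp at this; omega

theorem win_thm : WINStmt := by
  intro ι E _ _ _ t Q D h0 k m hm i j _ hi _ hj
  ext I
  rw [rho_apply, W_apply D h0 (k + 1) m hm, W_apply D h0 (k + 1) m hm]
  have h1 : (fun a => (I ∘ Equiv.swap (pos k i) (pos k j)) (Fin.castLE hm a)) =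
      (fun a => I (Fin.castLE hm a)) ∘ (Equiv.swap ⟨i, hi⟩ ⟨j, hj⟩ : Equiv.Perm (Fin m)) := by
    funext a
    simp only [Function.comp_apply]
    rw [swap_cast hm hi hj]
  have h2 : (fun a : Fin (k + 1 - m) => (I ∘ Equiv.swap (pos k i) (pos k j))
      (⟨m + a, by omega⟩ : Fin (k + 1))) =
      fun a : Fin (k + 1 - m) => I ⟨m + a, by omega⟩ := by
    funext a
    simp only [Function.comp_apply]
    rw [swap_tail hi hj hm]
  rw [h1, h2, D.symP]

end Pool.Agent.H88.KC.WIN
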